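import Pool.Agent.Helper531.ES.RDefs

set_option autoImplicit false

open Finset

namespace Helper531.ES

/-- The conclusion of the Erdős–Sós theorem, as a proposition. -/
def ESProp : Prop :=
  ∀ (n k : ℕ) (G : SimpleGraph (Fin n)),
      (k - 1) * n < 2 * G.edgeSet.ncard →
      ∀ T : SimpleGraph (Fin (k + 1)), T.IsTree →
        ∃ f : Fin (k + 1) → Fin n, Function.Injective f ∧
          ∀ a b, T.Adj a b → G.Adj (f a) (f b)

/-- colour class graph -/
def cg {N k : ℕ} (c : Fin N → Fin N → Fin k) (hc : ∀ x y, c x y = c y x) (i : Fin k) :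
    SimpleGraph (Fin N) where
  Adj x y := x ≠ y ∧ c x y = i
  symm := ⟨fun x y h => ⟨h.1.symm, by rw [hc]; exact h.2⟩⟩
  loopless := ⟨fun x h => h.1 rfl⟩

lemma two_ncard {N : ℕ} (G : SimpleGraph (Fin N)) [DecidableRel G.Adj] :
    2 * G.edgeSet.ncard = ((univ : Finset (Fin N × Fin N)).filter (fun p => G.Adj p.1 p.2)).card := by
  classical
  have h1 : 2 * G.edgeFinset.card = ∑ v, G.degree v := (G.sum_degrees_eq_twice_card_edges).symm
  have h2 : G.edgeSet.ncard = G.edgeFinset.card := by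
    rw [← SimpleGraph.coe_edgeFinset, Set.ncard_coe_finset]
  rw [h2, h1, Finset.card_filter, Fintype.sum_prod_type]
  refine Finset.sum_congr rfl (fun v _ => ?_)
  rw [← Finset.card_filter, ← SimpleGraph.card_neighborFinset_eq_degree]
  congr 1
  ext w
  simp

lemma sum_cg {N k : ℕ} (c : Fin N → Fin N → Fin k) (hc : ∀ x y, c x y = c y x) :
    ∑ i, 2 * (cg c hc i).edgeSet.ncard = N * (N - 1) := by
  classical
  have h1 : ∀ i, 2 * (cg c hc i).edgeSet.ncard =
      ((univ : Finset (Fin N × Fin N)).filter (fun p => p.1 ≠ p.2 ∧ c p.1 p.2 = i)).card := by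
    intro i
    rw [two_ncard]
    exact congrArg Finset.card (Finset.filter_congr (fun p _ => Iff.rfl))
  rw [Finset.sum_congr rfl (fun i _ => h1 i)]
  have h2 : ((univ : Finset (Fin N × Fin N)).filter (fun p => p.1 ≠ p.2)).card = N * (N - 1) := by
    have := Finset.offDiag_card (univ : Finset (Fin N))
    rw [Finset.card_univ, Fintype.card_fin] at this
    rw [Nat.mul_sub, mul_one, ← this]
    congr 1
    ext p
    simp [Finset.mem_offDiag]
  rw [← h2]
  rw [Finset.card_eq_sum_card_fiberwise (f := fun p : Fin N × Fin N => c p.1 p.2) (t := univ)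
    (fun _ _ => Finset.mem_coe.2 (Finset.mem_univ _))]
  refine Finset.sum_congr rfl (fun i _ => ?_)
  rw [Finset.filter_filter]

/-- If a colour class is dense, we find the tree. -/
lemma mono_of_es (hES : ESProp) {N k m : ℕ} (c : Fin N → Fin N → Fin k)
    (hc : ∀ x y, c x y = c y x) (T : SimpleGraph (Fin (m + 1))) (hT : T.IsTree)
    (i : Fin k) (hi : (m - 1) * N < 2 * (cg c hc i).edgeSet.ncard) :
    ∃ f : Fin (m + 1) ↪ Fin N, ∀ a b, T.Adj a b → c (f a) (f b) = i := by
  obtain ⟨f, hf, h⟩ := hES N m (cg c hc i) hi T hT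
  exact ⟨⟨f, hf⟩, fun a b hab => (h a b hab).2⟩

/-- Multicolour bound: N > k (m-1) + 1 vertices suffice for trees with m edges. -/
theorem multi (hES : ESProp) {k m N : ℕ} (hN : k * (m - 1) + 2 ≤ N)
    (T : SimpleGraph (Fin (m + 1))) (hT : T.IsTree)
    (c : Fin N → Fin N → Fin k) (hc : ∀ x y, c x y = c y x) :
    ∃ i : Fin k, ∃ f : Fin (m + 1) ↪ Fin N, ∀ a b, T.Adj a b → c (f a) (f b) = i := by
  by_contra hcon
  have h : ∀ i : Fin k, 2 * (cg c hc i).edgeSet.ncard ≤ (m - 1) * N := by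
    intro i
    by_contra hi
    exact hcon ⟨i, mono_of_es hES c hc T hT i (not_le.1 hi)⟩
  have h2 := sum_cg c hc
  have h3 : ∑ i, 2 * (cg c hc i).edgeSet.ncard ≤ k * ((m - 1) * N) := by
    calc ∑ i, 2 * (cg c hc i).edgeSet.ncard ≤ ∑ _i : Fin k, (m - 1) * N :=
          Finset.sum_le_sum (fun i _ => h i)
      _ = k * ((m - 1) * N) := by simp
  rw [h2] at h3
  obtain ⟨M, rfl⟩ : ∃ M, N = M + 1 := ⟨N - 1, by omega⟩
  have h4 : (M + 1) * M ≤ (M + 1) * (k * (m - 1)) := by
    have : M + 1 - 1 = M := by omega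
    rw [this] at h3
    calc (M + 1) * M ≤ k * ((m - 1) * (M + 1)) := h3
      _ = (M + 1) * (k * (m - 1)) := by ring
  have h5 := Nat.le_of_mul_le_mul_left h4 (Nat.succ_pos M)
  omega

/-- Two colours, odd number `m + 1` of vertices. -/
theorem odd_two (hES : ESProp) {m N : ℕ} (hm : 2 ≤ m) (hev : Even m) (hN : 2 * m - 1 ≤ N)
    (T : SimpleGraph (Fin (m + 1))) (hT : T.IsTree)
    (c : Fin N → Fin N → Fin 2) (hc : ∀ x y, c x y = c y x) :
    ∃ i : Fin 2, ∃ f : Fin (m + 1) ↪ Fin N, ∀ a b, T.Adj a b → c (f a) (f b) = i := by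
  rcases Nat.lt_or_ge (2 * m - 1) N with hlt | hge
  · exact multi hES (by omega) T hT c hc
  · have hNeq : N = 2 * m - 1 := le_antisymm hge hN
    by_contra hcon
    have h : ∀ i : Fin 2, 2 * (cg c hc i).edgeSet.ncard ≤ (m - 1) * N := by
      intro i
      by_contra hi
      exact hcon ⟨i, mono_of_es hES c hc T hT i (not_le.1 hi)⟩
    have h2 := sum_cg c hc
    rw [Fin.sum_univ_two] at h2
    have h0 := h 0
    have h1 := h 1
    have hodd : Odd ((m - 1) * N) := by
      apply Odd.mul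
      · obtain ⟨t, ht⟩ := hev
        exact ⟨t - 1, by omega⟩
      · exact ⟨m - 1, by omega⟩
    have hNN : N * (N - 1) = 2 * ((m - 1) * N) := by
      have : N - 1 = 2 * (m - 1) := by omega
      rw [this]; ring
    obtain ⟨t, ht⟩ := hodd
    omega

/-- Lower bound via stars. -/
theorem star_lower (k n : ℕ) (hn : 1 ≤ n) :
    ∃ T : SimpleGraph (Fin n), T.IsTree ∧
        ∃ c : Fin (k * n - 2 * k) → Fin (k * n - 2 * k) → Fin k, (∀ x y, c x y = c y x) ∧
          ∀ i : Fin k, ∀ f : Fin n ↪ Fin (k * n - 2 * k),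
            ∃ a b, T.Adj a b ∧ c (f a) (f b) ≠ i := by
  classical
  refine ⟨SimpleGraph.starGraph ⟨0, by omega⟩, SimpleGraph.isTree_starGraph _, ?_⟩
  rcases Nat.lt_or_ge 2 n with h2 | h2
  · have hlt : ∀ s, s < k * n - 2 * k → s / (n - 2) < k := by
      intro s hs
      rw [Nat.div_lt_iff_lt_mul (by omega)]
      have : k * (n - 2) = k * n - 2 * k := by rw [Nat.mul_sub]; ring_nf
      omega
    refine ⟨fun x y => ⟨((x.1 + y.1) % (k * n - 2 * k)) / (n - 2), hlt _ (Nat.mod_lt _ (by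
      have := x.2; omega))⟩, ?_, ?_⟩
    · intro x y
      simp only [Fin.mk.injEq]
      rw [add_comm]
    · intro i f
      by_contra hcon
      push Not at hcon
      set z : Fin n := ⟨0, by omega⟩ with hz
      have hb : ∀ b : Fin n, b ≠ z →
          (((f z).1 + (f b).1) % (k * n - 2 * k)) / (n - 2) = i.1 := by
        intro b hb
        have := hcon z b (SimpleGraph.starGraph_center_adj (Ne.symm hb))
        have := congrArg Fin.val this
        simpa using this
      have hmaps : ∀ b ∈ (univ : Finset (Fin n)).erase z,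
          ((f z).1 + (f b).1) % (k * n - 2 * k) ∈ Finset.Ico (i.1 * (n - 2)) ((i.1 + 1) * (n - 2)) := by
        intro b hb'
        have h3 := hb b (Finset.ne_of_mem_erase hb')
        rw [Finset.mem_Ico]
        rw [← h3]
        constructor
        · exact Nat.div_mul_le_self _ _
        · have := Nat.lt_mul_div_succ (((f z).1 + (f b).1) % (k * n - 2 * k))
            (show 0 < n - 2 by omega)
          calc _ < _ := this
            _ = _ := Nat.mul_comm _ _
      have hinj : Set.InjOn (fun b : Fin n => ((f z).1 + (f b).1) % (k * n - 2 * k))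
          ((univ : Finset (Fin n)).erase z : Set (Fin n)) := by
        intro a _ b _ hab
        have h4 : (f a).1 ≡ (f b).1 [MOD (k * n - 2 * k)] := Nat.ModEq.add_left_cancel' _ hab
        have h5 := Nat.ModEq.eq_of_lt_of_lt h4 (f a).2 (f b).2
        exact f.injective (Fin.ext h5)
      have hcard := Finset.card_le_card_of_injOn _ hmaps hinj
      rw [Finset.card_erase_of_mem (Finset.mem_univ _), Finset.card_univ, Fintype.card_fin,
        Nat.card_Ico] at hcard
      have : (i.1 + 1) * (n - 2) - i.1 * (n - 2) = n - 2 := by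
        rw [Nat.add_mul, one_mul]; omega
      omega
  · have h0 : k * n - 2 * k = 0 := by
      have : k * n ≤ k * 2 := Nat.mul_le_mul_left k h2
      omega
    rw [h0]
    refine ⟨fun x => x.elim0, fun x => x.elim0, ?_⟩
    intro i f
    exact (f ⟨0, by omega⟩).elim0

/-- S05459 from Erdős–Sós. -/
theorem erdos_graham (hES : ESProp) :
    ∀ k : ℕ, 1 ≤ k → ∃ C : ℕ,
      (∀ n : ℕ, ∀ T : SimpleGraph (Fin n), T.IsTree → ∀ N : ℕ, k * n + C ≤ N →
        ∀ c : Fin N → Fin N → Fin k, (∀ x y, c x y = c y x) →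
          ∃ i : Fin k, ∃ f : Fin n ↪ Fin N, ∀ a b, T.Adj a b → c (f a) (f b) = i) ∧
      (∀ n : ℕ, 1 ≤ n → ∃ T : SimpleGraph (Fin n), T.IsTree ∧
        ∃ c : Fin (k * n - C) → Fin (k * n - C) → Fin k, (∀ x y, c x y = c y x) ∧
          ∀ i : Fin k, ∀ f : Fin n ↪ Fin (k * n - C),
            ∃ a b, T.Adj a b ∧ c (f a) (f b) ≠ i) := by
  intro k hk
  refine ⟨2 * k, ?_, fun n hn => star_lower k n hn⟩
  intro n T hT N hN c hc
  have hn : 1 ≤ n := by
    rcases Nat.eq_zero_or_pos n with h | h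
    · subst h
      obtain ⟨x⟩ := hT.connected.nonempty
      exact x.elim0
    · exact h
  obtain ⟨m, rfl⟩ : ∃ m, n = m + 1 := ⟨n - 1, by omega⟩
  refine multi hES ?_ T hT c hc
  have : k * (m - 1) ≤ k * (m + 1) := Nat.mul_le_mul_left k (by omega)
  omega

theorem exists_ramsey {V : Type} (T : SimpleGraph V) (k N : ℕ) (h : Arrows T k N) :
    ∃ r, IsRamseyNumber T k r ∧ r ≤ N := by
  classical
  refine ⟨Nat.find ⟨N, h⟩, ⟨Nat.find_spec ⟨N, h⟩, fun x hx => Nat.find_min' _ hx⟩, Nat.find_min' _ h⟩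

theorem asymp (hES : ESProp) (k : ℕ) (hk : 2 ≤ k) (ε : ℝ) (hε : 0 < ε) :
    ∃ m₀ : ℕ, ∀ m : ℕ, m₀ ≤ m → ∀ T : SimpleGraph (Fin m), T.IsTree →
      ∃ r : ℕ, IsRamseyNumber T k r ∧ (r : ℝ) ≤ (1 + ε) * (k * m) := by
  refine ⟨2, fun m hm T hT => ?_⟩
  obtain ⟨m, rfl⟩ : ∃ m', m = m' + 1 := ⟨m - 1, by omega⟩
  have hA : Arrows T k (k * (m - 1) + 2) := fun c hc => multi hES le_rfl T hT c hc
  obtain ⟨r, hr, hle⟩ := exists_ramsey T k _ hA
  refine ⟨r, hr, ?_⟩
  have h1 : r ≤ k * (m + 1) := by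
    obtain ⟨m, rfl⟩ : ∃ m', m = m' + 1 := ⟨m - 1, by omega⟩
    have : k * (m + 1 + 1) = k * m + 2 * k := by ring
    simp only [Nat.add_sub_cancel] at hle
    omega
  have h2 : (r : ℝ) ≤ (k : ℝ) * ((m + 1 : ℕ) : ℝ) := by exact_mod_cast h1
  have h3 : (0 : ℝ) ≤ (k : ℝ) * ((m + 1 : ℕ) : ℝ) := by positivity
  nlinarith

theorem burr_erdos (hES : ESProp) (n : ℕ) (hn : 3 ≤ n) (hodd : Odd n)
    (T : SimpleGraph (Fin n)) (hT : T.IsTree) :
    ∃ r : ℕ, IsRamseyNumber T 2 r ∧ r ≤ 2 * n - 3 := by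
  obtain ⟨m, rfl⟩ : ∃ m', n = m' + 1 := ⟨n - 1, by omega⟩
  have hev : Even m := by
    obtain ⟨t, ht⟩ := hodd
    exact ⟨t, by omega⟩
  have hA : Arrows T 2 (2 * (m + 1) - 3) :=
    fun c hc => odd_two hES (by omega) hev (by omega) T hT c hc
  exact exists_ramsey T 2 _ hA

end Helper531.ES
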