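import Pool.Agent.Helper531.ES.Cor
import Pool.Agent.Helper903.ES.Main

set_option autoImplicit false

namespace Helper531.ES

theorem esProp : ESProp := by
  intro n k G h T hT
  classical
  have h' : (k - 1) * Fintype.card (Fin n) < 2 * G.edgeFinset.card := by
    rw [Fintype.card_fin, ← Set.ncard_coe_finset, SimpleGraph.coe_edgeFinset]
    exact h
  obtain ⟨f, hf⟩ := ES903.erdos_sos G k h' T hT (Fintype.card_fin _)
  exact ⟨f, f.injective, hf⟩

end Helper531.ES
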