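import Pool.Agent.Helper903.ES.Main

set_option autoImplicit false

open Finset

namespace Helper531.LKS

open ES903

variable {V W : Type*} [DecidableEq V] [Fintype V]

/-- vertexwise left inequality -/
theorem left_ineq (q : Finset V → Prop) (hq : ∀ S T, S ⊆ T → q S → q T) (N : Finset V) :
    ((N.card : ℚ) + 1) * E univ (Fail q) - ((Fintype.card V : ℚ) + 1) ≤
      ∑ v ∈ N, E univ (fun S => Fail q (insert v S)) := by
  have e1 := E_up (univ : Finset V) (Fail q)
  have e2 : ∑ v ∈ N, (E univ (Fail q) - E univ (fun S => Fail q (insert v S))) ≤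
      ∑ v ∈ (univ : Finset V), (E univ (Fail q) - E univ (fun S => Fail q (insert v S))) := by
    apply Finset.sum_le_sum_of_subset_of_nonneg (Finset.subset_univ _)
    intro x _ _
    have : E univ (fun S => Fail q (insert x S)) ≤ E univ (Fail q) := by
      apply E_mono
      intro S _
      apply Fail_mono
      exact hq S _ (Finset.subset_insert _ _)
    linarith
  rw [e1, Finset.sum_sub_distrib, Finset.sum_const, nsmul_eq_mul, Finset.card_univ] at e2
  have e3 := Fail_le_one q ∅
  have e4 : (0:ℚ) ≤ (Fintype.card V : ℚ) + 1 := by positivity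
  nlinarith

/-- vertexwise right inequality -/
theorem right_ineq (p : Finset V → Prop) (hp : ∀ S T, S ⊆ T → p S → p T) (N : Finset V) :
    ∑ u ∈ N, E univ (fun S => Fail p (S.erase u)) ≤ ((N.card : ℚ) + 1) * E univ (Fail p) := by
  have e1 := E_down (univ : Finset V) (Fail p)
  have e2 : ∑ u ∈ N, (E univ (fun S => Fail p (S.erase u)) - E univ (Fail p)) ≤
      ∑ u ∈ (univ : Finset V), (E univ (fun S => Fail p (S.erase u)) - E univ (Fail p)) := by
    apply Finset.sum_le_sum_of_subset_of_nonneg (Finset.subset_univ _)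
    intro x _ _
    have : E univ (Fail p) ≤ E univ (fun S => Fail p (S.erase x)) := by
      apply E_mono
      intro S _
      apply Fail_mono
      exact hp _ _ (Finset.erase_subset _ _)
    linarith
  rw [e1, Finset.sum_sub_distrib, Finset.sum_const, nsmul_eq_mul, Finset.card_univ] at e2
  have e3 := Fail_nonneg p univ
  have e4 : (0:ℚ) ≤ (Fintype.card V : ℚ) + 1 := by positivity
  nlinarith [mul_nonneg e4 e3]

/-- planting between two sets -/
theorem plant2 (A B : Finset V) (N N' : V → Finset V)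
    (hNN : ∀ u v, (u ∈ A ∧ v ∈ N u) ↔ (v ∈ B ∧ u ∈ N' v))
    (p q : V → Finset V → Prop)
    (hp : ∀ v S T, S ⊆ T → p v S → p v T) (hq : ∀ v S T, S ⊆ T → q v S → q v T)
    (h : ∀ u v S, u ∈ A → v ∈ N u → p v (S.erase u) → q u (insert v S)) :
    ∑ u ∈ A, (((N u).card : ℚ) + 1) * E univ (Fail (q u)) ≤
      ∑ v ∈ B, (((N' v).card : ℚ) + 1) * E univ (Fail (p v)) +
        (A.card : ℚ) * ((Fintype.card V : ℚ) + 1) := by
  have harc : ∑ u ∈ A, ∑ v ∈ N u, E univ (fun S => Fail (q u) (insert v S)) ≤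
      ∑ v ∈ B, ∑ u ∈ N' v, E univ (fun S => Fail (p v) (S.erase u)) := by
    have : ∑ v ∈ B, ∑ u ∈ N' v, E univ (fun S => Fail (p v) (S.erase u)) =
      ∑ u ∈ A, ∑ v ∈ N u, E univ (fun S => Fail (p v) (S.erase u)) := by
      apply Finset.sum_comm'
      intro x y
      exact ((hNN y x).symm).trans and_comm
    rw [this]
    apply Finset.sum_le_sum
    intro u hu
    apply Finset.sum_le_sum
    intro v hv
    apply E_mono
    intro S _
    apply Fail_mono
    intro hh
    exact h u v S hu hv hh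
  have s1 : ∑ u ∈ A, ((((N u).card : ℚ) + 1) * E univ (Fail (q u)) - ((Fintype.card V : ℚ) + 1)) ≤
      ∑ u ∈ A, ∑ v ∈ N u, E univ (fun S => Fail (q u) (insert v S)) :=
    Finset.sum_le_sum (fun u _ => left_ineq (q u) (hq u) (N u))
  have s2 : ∑ v ∈ B, ∑ u ∈ N' v, E univ (fun S => Fail (p v) (S.erase u)) ≤
      ∑ v ∈ B, (((N' v).card : ℚ) + 1) * E univ (Fail (p v)) :=
    Finset.sum_le_sum (fun v _ => right_ineq (p v) (hp v) (N' v))
  rw [Finset.sum_sub_distrib, Finset.sum_const, nsmul_eq_mul] at s1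
  linarith

end Helper531.LKS
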