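import Pool.Agent.Helper531.ES.LKS1

set_option autoImplicit false

open Finset

namespace Helper531.LKS

open ES903 ES903.RT

variable {V W : Type*}

/-- a single vertex -/
def IsNode : RT W → Prop
  | .node _ => True
  | .graft _ _ => False

instance : DecidablePred (IsNode (W := W)) := fun t => by
  cases t <;> (unfold IsNode; infer_instance)

/-- conditional step from a root to a new child -/
def Step [DecidableEq V] (G : SimpleGraph V) (B : Set V) (p : V → Finset V → Prop)
    (u : V) (S : Finset V) : Prop :=
  ∃ v, v ∈ S ∧ v ∈ B ∧ G.Adj u v ∧ p v (S.erase u)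

/-- embedding with free leaves.  Role `true`: the root sits in `L`. -/
def Emb' [DecidableEq V] (G : SimpleGraph V) (L : Set V) : RT W → Bool → V → Finset V → Prop
  | .node _, _, _, _ => True
  | .graft A B, true, u, S =>
      (IsNode A ∧ Emb' G L B true u S) ∨
      (¬ IsNode A ∧ comp (Step G Set.univ (Emb' G L A false) u) (Emb' G L B true u) S)
  | .graft A B, false, u, S =>
      (IsNode A ∧ u ∈ L ∧ Emb' G L B false u S) ∨
      ((¬ IsNode A ∨ u ∉ L) ∧ comp (Step G L (Emb' G L A true) u) (Emb' G L B false u) S)

theorem Step_mono [DecidableEq V] {G : SimpleGraph V} {B : Set V} {p : V → Finset V → Prop}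
    (hp : ∀ v S T, S ⊆ T → p v S → p v T) (u : V) (S T : Finset V) (h : S ⊆ T)
    (hc : Step G B p u S) : Step G B p u T := by
  obtain ⟨v, h1, h2, h3, h4⟩ := hc
  exact ⟨v, h h1, h2, h3, hp _ _ _ (Finset.erase_subset_erase _ h) h4⟩

theorem Emb'_mono [DecidableEq V] (G : SimpleGraph V) (L : Set V) (t : RT W) :
    ∀ (r : Bool) (u : V) (S T : Finset V), S ⊆ T → Emb' G L t r u S → Emb' G L t r u T := by
  induction t with
  | node w => intro r u S T _ _; cases r <;> trivial
  | graft A B ihA ihB =>
    intro r u S T h hS
    cases r with
    | true =>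
      rcases hS with ⟨h1, h2⟩ | ⟨h1, h2⟩
      · exact Or.inl ⟨h1, ihB true u S T h h2⟩
      · exact Or.inr ⟨h1, comp_mono (ihB true u) S T h h2⟩
    | false =>
      rcases hS with ⟨h1, h2, h3⟩ | ⟨h1, h2⟩
      · exact Or.inl ⟨h1, h2, ihB false u S T h h3⟩
      · exact Or.inr ⟨h1, comp_mono (ihB false u) S T h h2⟩

/-- number of cost units (units of `|L|`) -/
def cst : RT W → Bool → ℕ
  | .node _, _ => 0
  | .graft A B, true => cst B true + (if IsNode A then 0 else cst A false + 1)
  | .graft A B, false => cst B false + (if IsNode A then 1 else cst A true + 2)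

/-- number of childless nonroot vertices -/
def nl : RT W → ℕ
  | .node _ => 0
  | .graft A B => nl B + (if IsNode A then 1 else nl A)

/-- number of vertices of role `true` -/
def nX : RT W → Bool → ℕ
  | .node _, r => if r then 1 else 0
  | .graft A B, r => nX A (!r) + nX B r

theorem cst_formula (t : RT W) : ∀ r : Bool,
    cst t r + nl t + (if r then 1 else 0) = t.size + nX t r := by
  induction t with
  | node w => intro r; simp [cst, nl, nX, RT.size]
  | graft A B ihA ihB =>
    intro r
    cases r with
    | true =>
      have hB := ihB true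
      have hA := ihA false
      simp only [cst, nl, nX, RT.size, if_true, Bool.not_true] at hA hB ⊢
      by_cases h : IsNode A
      · cases A with
        | node w => simp only [h, if_true, RT.size, nX] at hA ⊢; simp at hA ⊢; omega
        | graft A1 A2 => exact h.elim
      · simp only [h, if_false] at hA ⊢
        simp at hA
        omega
    | false =>
      have hB := ihB false
      have hA := ihA true
      simp only [cst, nl, nX, RT.size, if_true, Bool.not_false] at hA hB ⊢
      by_cases h : IsNode A
      · cases A with
        | node w => simp only [h, if_true, RT.size, nX] at hA hB ⊢; simp at hA hB ⊢; omega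
        | graft A1 A2 => exact h.elim
      · simp only [h, if_false] at hA ⊢
        simp at hA hB ⊢
        omega

end Helper531.LKS
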