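import Pool.Agent.Helper531.ES.LKS2

set_option autoImplicit false

open Finset

namespace Helper531.LKS

open ES903 ES903.RT

variable {V W : Type*} [DecidableEq V] [Fintype V]

omit [DecidableEq V] in
theorem E_Fail_true (p : Finset V → Prop) (h : ∀ S, p S) : E univ (Fail p) = 0 := by
  have : Fail p = fun _ => 0 := by
    funext S
    simp [Fail, h S]
  rw [this]
  simp [E]

omit [DecidableEq V] in
theorem E_Fail_nonneg (p : Finset V → Prop) : 0 ≤ E univ (Fail p) :=
  E_nonneg _ (Fail_nonneg p)

theorem cost' (G : SimpleGraph V) [DecidableRel G.Adj] (L : Finset V)
    (hL : Fintype.card V ≤ 2 * L.card) (t : RT W) :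
    ∑ u ∈ L, (((G.neighborFinset u).card : ℚ) + 1) * E univ (Fail (Emb' G (L : Set V) t true u)) ≤
      (cst t true : ℚ) * ((L.card : ℚ) * ((Fintype.card V : ℚ) + 1)) ∧
    ∑ v, ((((G.neighborFinset v).filter (· ∈ L)).card : ℚ) + 1) *
        E univ (Fail (Emb' G (L : Set V) t false v)) ≤
      (cst t false : ℚ) * ((L.card : ℚ) * ((Fintype.card V : ℚ) + 1)) := by
  have hn : (0:ℚ) ≤ (Fintype.card V : ℚ) + 1 := by positivity
  induction t with
  | node w =>
    constructor
    · rw [Finset.sum_eq_zero]
      · simp [cst]
      · intro u _
        rw [E_Fail_true (Emb' G (L : Set V) (.node w) true u) (fun _ => trivial), mul_zero]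
    · rw [Finset.sum_eq_zero]
      · simp [cst]
      · intro u _
        rw [E_Fail_true (Emb' G (L : Set V) (.node w) false u) (fun _ => trivial), mul_zero]
  | graft A B ihA ihB =>
    obtain ⟨ihA1, ihA2⟩ := ihA
    obtain ⟨ihB1, ihB2⟩ := ihB
    by_cases hA : IsNode A
    · constructor
      · have h1 : ∀ u, Emb' G (L : Set V) (.graft A B) true u = Emb' G (L : Set V) B true u := by
          intro u
          funext S
          simp [Emb', hA]
        have h2 : cst (.graft A B) true = cst B true := by simp [cst, hA]
        simp only [h1, h2]
        exact ihB1
      · -- false role, A a leaf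
        have hAt : ∀ u S, Emb' G (L : Set V) A true u S := by
          intro u S
          cases A with
          | node w => trivial
          | graft A1 A2 => exact hA.elim
        have key : ∀ v, E univ (Fail (Emb' G (L : Set V) (.graft A B) false v)) ≤
            (if v ∈ Lᶜ then E univ (Fail (Step G (L : Set V) (Emb' G (L : Set V) A true) v)) else 0) +
              E univ (Fail (Emb' G (L : Set V) B false v)) := by
          intro v
          by_cases hv : v ∈ L
          · have h1 : Emb' G (L : Set V) (.graft A B) false v = Emb' G (L : Set V) B false v := by
              funext S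
              simp [Emb', hA, hv]
            rw [h1]
            simp [hv]
          · have h1 : Emb' G (L : Set V) (.graft A B) false v =
                comp (Step G (L : Set V) (Emb' G (L : Set V) A true) v)
                  (Emb' G (L : Set V) B false v) := by
              funext S
              simp [Emb', hA, hv]
            rw [h1]
            simp only [Finset.mem_compl, hv, not_false_eq_true, if_true]
            exact glue univ _ _
        have h3 : ∑ v, ((((G.neighborFinset v).filter (· ∈ L)).card : ℚ) + 1) *
            E univ (Fail (Emb' G (L : Set V) (.graft A B) false v)) ≤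
            ∑ v, ((((G.neighborFinset v).filter (· ∈ L)).card : ℚ) + 1) *
              (if v ∈ Lᶜ then E univ (Fail (Step G (L : Set V) (Emb' G (L : Set V) A true) v)) else 0) +
            ∑ v, ((((G.neighborFinset v).filter (· ∈ L)).card : ℚ) + 1) *
              E univ (Fail (Emb' G (L : Set V) B false v)) := by
          rw [← Finset.sum_add_distrib]
          apply Finset.sum_le_sum
          intro v _
          rw [← mul_add]
          exact mul_le_mul_of_nonneg_left (key v) (by positivity)
        have h4 : ∑ v, ((((G.neighborFinset v).filter (· ∈ L)).card : ℚ) + 1) *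
              (if v ∈ Lᶜ then E univ (Fail (Step G (L : Set V) (Emb' G (L : Set V) A true) v)) else 0) =
            ∑ v ∈ Lᶜ, ((((G.neighborFinset v).filter (· ∈ L)).card : ℚ) + 1) *
              E univ (Fail (Step G (L : Set V) (Emb' G (L : Set V) A true) v)) := by
          simp only [mul_ite, mul_zero]
          rw [← Finset.sum_filter]
          apply Finset.sum_congr _ (fun _ _ => rfl)
          ext x; simp
        have h5 := plant2 Lᶜ L (fun v => (G.neighborFinset v).filter (· ∈ L))
          (fun u => (G.neighborFinset u).filter (· ∈ Lᶜ)) (by
            intro u v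
            simp only [Finset.mem_filter, SimpleGraph.mem_neighborFinset]
            constructor
            · rintro ⟨h1, h2, h3⟩; exact ⟨h3, h2.symm, h1⟩
            · rintro ⟨h1, h2, h3⟩; exact ⟨h3, h2.symm, h1⟩)
          (Emb' G (L : Set V) A true) (Step G (L : Set V) (Emb' G (L : Set V) A true))
          (fun v S T => Emb'_mono G (L : Set V) A true v S T)
          (Step_mono (fun v S T => Emb'_mono G (L : Set V) A true v S T)) (by
            intro u v S _ hv _
            simp only [Finset.mem_filter, SimpleGraph.mem_neighborFinset] at hv
            exact ⟨v, Finset.mem_insert_self _ _, hv.2, hv.1, hAt _ _⟩)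
        have h6 : ∑ v ∈ L, ((((fun u => (G.neighborFinset u).filter (· ∈ Lᶜ)) v).card : ℚ) + 1) *
            E univ (Fail (Emb' G (L : Set V) A true v)) = 0 := by
          apply Finset.sum_eq_zero
          intro v _
          rw [E_Fail_true _ (hAt v), mul_zero]
        rw [h6, zero_add] at h5
        have h7 : ((Lᶜ.card : ℕ) : ℚ) ≤ (L.card : ℚ) := by
          rw [Finset.card_compl]
          exact_mod_cast (by omega : Fintype.card V - L.card ≤ L.card)
        have h8 : (cst (.graft A B) false : ℚ) = cst B false + 1 := by simp [cst, hA]
        rw [h8]
        have h9 := mul_le_mul_of_nonneg_right h7 hn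
        rw [h4] at h3
        have h10 := le_trans h5 h9
        refine h3.trans ?_
        have : ∑ v ∈ Lᶜ, ((((G.neighborFinset v).filter (· ∈ L)).card : ℚ) + 1) *
              E univ (Fail (Step G (L : Set V) (Emb' G (L : Set V) A true) v)) ≤
            (L.card : ℚ) * ((Fintype.card V : ℚ) + 1) := h10
        linarith
    · constructor
      · have h1 : ∀ u, Emb' G (L : Set V) (.graft A B) true u =
            comp (Step G Set.univ (Emb' G (L : Set V) A false) u) (Emb' G (L : Set V) B true u) := by
          intro u
          funext S
          simp [Emb', hA]
        have h3 : ∑ u ∈ L, (((G.neighborFinset u).card : ℚ) + 1) *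
            E univ (Fail (Emb' G (L : Set V) (.graft A B) true u)) ≤
            ∑ u ∈ L, (((G.neighborFinset u).card : ℚ) + 1) *
              E univ (Fail (Step G Set.univ (Emb' G (L : Set V) A false) u)) +
            ∑ u ∈ L, (((G.neighborFinset u).card : ℚ) + 1) *
              E univ (Fail (Emb' G (L : Set V) B true u)) := by
          rw [← Finset.sum_add_distrib]
          apply Finset.sum_le_sum
          intro v _
          rw [← mul_add, h1]
          exact mul_le_mul_of_nonneg_left (glue univ _ _) (by positivity)
        have h5 := plant2 L univ (fun u => G.neighborFinset u)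
          (fun v => (G.neighborFinset v).filter (· ∈ L)) (by
            intro u v
            simp only [Finset.mem_filter, SimpleGraph.mem_neighborFinset, Finset.mem_univ, true_and]
            constructor
            · rintro ⟨h1, h2⟩; exact ⟨h2.symm, h1⟩
            · rintro ⟨h1, h2⟩; exact ⟨h2, h1.symm⟩)
          (Emb' G (L : Set V) A false) (Step G Set.univ (Emb' G (L : Set V) A false))
          (fun v S T => Emb'_mono G (L : Set V) A false v S T)
          (Step_mono (fun v S T => Emb'_mono G (L : Set V) A false v S T)) (by
            intro u v S _ hv hp
            simp only [SimpleGraph.mem_neighborFinset] at hv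
            exact ⟨v, Finset.mem_insert_self _ _, trivial, hv, Emb'_mono G _ A false v _ _
              (Finset.erase_subset_erase _ (Finset.subset_insert _ _)) hp⟩)
        have h8 : (cst (.graft A B) true : ℚ) = cst B true + (cst A false + 1) := by
          simp [cst, hA]
        rw [h8]
        refine h3.trans ?_
        have h5' : ∑ u ∈ L, (((G.neighborFinset u).card : ℚ) + 1) *
              E univ (Fail (Step G Set.univ (Emb' G (L : Set V) A false) u)) ≤
            ∑ v, ((((G.neighborFinset v).filter (· ∈ L)).card : ℚ) + 1) *
              E univ (Fail (Emb' G (L : Set V) A false v)) +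
            (L.card : ℚ) * ((Fintype.card V : ℚ) + 1) := h5
        linarith
      · have h1 : ∀ u, Emb' G (L : Set V) (.graft A B) false u =
            comp (Step G (L : Set V) (Emb' G (L : Set V) A true) u) (Emb' G (L : Set V) B false u) := by
          intro u
          funext S
          simp [Emb', hA]
        have h3 : ∑ u, ((((G.neighborFinset u).filter (· ∈ L)).card : ℚ) + 1) *
            E univ (Fail (Emb' G (L : Set V) (.graft A B) false u)) ≤
            ∑ u, ((((G.neighborFinset u).filter (· ∈ L)).card : ℚ) + 1) *
              E univ (Fail (Step G (L : Set V) (Emb' G (L : Set V) A true) u)) +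
            ∑ u, ((((G.neighborFinset u).filter (· ∈ L)).card : ℚ) + 1) *
              E univ (Fail (Emb' G (L : Set V) B false u)) := by
          rw [← Finset.sum_add_distrib]
          apply Finset.sum_le_sum
          intro v _
          rw [← mul_add, h1]
          exact mul_le_mul_of_nonneg_left (glue univ _ _) (by positivity)
        have h5 := plant2 univ L (fun v => (G.neighborFinset v).filter (· ∈ L))
          (fun u => G.neighborFinset u) (by
            intro u v
            simp only [Finset.mem_filter, SimpleGraph.mem_neighborFinset, Finset.mem_univ, true_and]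
            constructor
            · rintro ⟨h1, h2⟩; exact ⟨h2, h1.symm⟩
            · rintro ⟨h1, h2⟩; exact ⟨h2.symm, h1⟩)
          (Emb' G (L : Set V) A true) (Step G (L : Set V) (Emb' G (L : Set V) A true))
          (fun v S T => Emb'_mono G (L : Set V) A true v S T)
          (Step_mono (fun v S T => Emb'_mono G (L : Set V) A true v S T)) (by
            intro u v S _ hv hp
            simp only [Finset.mem_filter, SimpleGraph.mem_neighborFinset] at hv
            exact ⟨v, Finset.mem_insert_self _ _, hv.2, hv.1, Emb'_mono G _ A true v _ _
              (Finset.erase_subset_erase _ (Finset.subset_insert _ _)) hp⟩)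
        have h8 : (cst (.graft A B) false : ℚ) = cst B false + (cst A true + 2) := by
          simp [cst, hA]
        rw [h8]
        refine h3.trans ?_
        have h5' : ∑ u, ((((G.neighborFinset u).filter (· ∈ L)).card : ℚ) + 1) *
              E univ (Fail (Step G (L : Set V) (Emb' G (L : Set V) A true) u)) ≤
            ∑ v ∈ L, (((G.neighborFinset v).card : ℚ) + 1) *
              E univ (Fail (Emb' G (L : Set V) A true v)) +
            ((univ : Finset V).card : ℚ) * ((Fintype.card V : ℚ) + 1) := h5
        rw [Finset.card_univ] at h5'
        have h7 : (Fintype.card V : ℚ) ≤ 2 * (L.card : ℚ) := by exact_mod_cast hL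
        have h9 := mul_le_mul_of_nonneg_right h7 hn
        linarith

end Helper531.LKS
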