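import Pool.Agent.Helper531.ES.LKS3
import Pool.Agent.Helper903.ES.Extract

set_option autoImplicit false

open Finset

namespace Helper531.LKS

open ES903 ES903.RT

/-! ### job 26937 -/
section



theorem exists_RT_root_rmap_edge {W W' : Type*} (f : W → W') (t : RT W) (a b : W')
    (h : (t.rmap f).Edge a b) : ∃ a0 b0, a = f a0 ∧ b = f b0 ∧ t.Edge a0 b0 := by
  induction t with
  | node w => exact h.elim
  | graft A B ihA ihB =>
    rcases h with h | h | ⟨h1, h2⟩
    · obtain ⟨a0, b0, e1, e2, e3⟩ := ihA h
      exact ⟨a0, b0, e1, e2, Or.inl e3⟩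
    · obtain ⟨a0, b0, e1, e2, e3⟩ := ihB h
      exact ⟨a0, b0, e1, e2, Or.inr (Or.inl e3)⟩
    · rw [rmap_root] at h1 h2
      exact ⟨B.root, A.root, h1, h2, Or.inr (Or.inr ⟨rfl, rfl⟩)⟩

theorem exists_RT_root_addLeaf_edge {W : Type*} [DecidableEq W] (p w : W) (t : RT W)
    (hp : p ∈ t.verts) (a b : W) (h : (t.addLeaf p w).Edge a b) :
    t.Edge a b ∨ (a = p ∧ b = w) := by
  induction t with
  | node r =>
    have hpr : p = r := by simpa [verts] using hp
    rcases h with h | h | ⟨h1, h2⟩
    · exact h.elim
    · exact h.elim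
    · right
      exact ⟨h1.trans hpr.symm, h2⟩
  | graft A B ihA ihB =>
    rw [addLeaf] at h
    split_ifs at h with h1 h2
    · rcases h with h | h | ⟨h3, h4⟩
      · exact h.elim
      · exact Or.inl h
      · exact Or.inr ⟨h3.trans h1.symm, h4⟩
    · rcases h with h | h | ⟨h3, h4⟩
      · rcases ihA h2 h with h | h
        · exact Or.inl (Or.inl h)
        · exact Or.inr h
      · exact Or.inl (Or.inr (Or.inl h))
      · rw [addLeaf_root] at h4
        exact Or.inl (Or.inr (Or.inr ⟨h3, h4⟩))
    · have hpB : p ∈ B.verts := by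
        rcases Finset.mem_union.1 hp with h | h
        · exact absurd h h2
        · exact h
      rcases h with h | h | ⟨h3, h4⟩
      · exact Or.inl (Or.inl h)
      · rcases ihB hpB h with h | h
        · exact Or.inl (Or.inr (Or.inl h))
        · exact Or.inr h
      · rw [addLeaf_root] at h3
        exact Or.inl (Or.inr (Or.inr ⟨h3, h4⟩))

theorem exists_RT_root_aux (n : ℕ) : ∀ {W : Type*} [Fintype W] [DecidableEq W]
    (T : SimpleGraph W) (_ : T.IsTree) (_ : Fintype.card W = n + 1) (r : W),
    ∃ t : RT W, t.root = r ∧ t.Good ∧ t.verts = Finset.univ ∧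
      (∀ a b, T.Adj a b ↔ (t.Edge a b ∨ t.Edge b a)) ∧ t.size + 1 = Fintype.card W := by
  induction n with
  | zero =>
    intro W _ _ T hT hc r
    obtain ⟨w, hw⟩ := Fintype.card_eq_one_iff.1 (by simpa using hc)
    refine ⟨RT.node r, rfl, trivial, ?_, ?_, ?_⟩
    · ext x; simp [RT.verts, hw x, hw r]
    · intro a b
      constructor
      · intro hab
        exact absurd ((hw a).trans (hw b).symm) hab.ne
      · rintro (h | h)
        · exact h.elim
        · exact h.elim
    · simp [RT.size, hc]
  | succ n ih =>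
    intro W _ _ T hT hc r
    classical
    have : Nontrivial W := Fintype.one_lt_card_iff_nontrivial.1 (by omega)
    obtain ⟨v, hvr, hv⟩ : ∃ v, v ≠ r ∧ T.degree v = 1 := by
      obtain ⟨u, v, huv, hu, hv⟩ := hT.exists_ne_and_degree_eq_one
      by_cases h : u = r
      · refine ⟨v, ?_, hv⟩
        rw [← h]; exact huv.symm
      · exact ⟨u, h, hu⟩
    have hconn := hT.connected.induce_compl_singleton_of_degree_eq_one hv
    have hac := hT.isAcyclic.induce ({v}ᶜ : Set W)
    obtain ⟨p, hvp, hup⟩ := SimpleGraph.degree_eq_one_iff_existsUnique_adj.mp hv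
    have hcard : Fintype.card ({v}ᶜ : Set W) = n + 1 := by
      rw [Fintype.card_compl_set]
      simp [hc]
    obtain ⟨t, hroot, hg, hvt, he, hs⟩ := ih (T.induce ({v}ᶜ : Set W)) ⟨hconn, hac⟩ hcard
      ⟨r, hvr.symm⟩
    have hverts : (t.rmap (Subtype.val : ({v}ᶜ : Set W) → W)).verts = Finset.univ.erase v := by
      rw [RT.rmap_verts, hvt]
      ext x
      simp
    have hpv : p ∈ (t.rmap (Subtype.val : ({v}ᶜ : Set W) → W)).verts := by
      rw [hverts]
      simp [hvp.ne']
    have hnew : ((t.rmap (Subtype.val : ({v}ᶜ : Set W) → W)).addLeaf p v).Edge p v :=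
      RT.addLeaf_edge_new _ _ _ hpv
    have hback : ∀ a b, ((t.rmap (Subtype.val : ({v}ᶜ : Set W) → W)).addLeaf p v).Edge a b →
        T.Adj a b := by
      intro a b hab
      rcases exists_RT_root_addLeaf_edge _ _ _ hpv _ _ hab with h | ⟨rfl, rfl⟩
      · obtain ⟨a0, b0, rfl, rfl, h'⟩ := exists_RT_root_rmap_edge _ _ _ _ h
        have := (he a0 b0).2 (Or.inl h')
        exact this
      · exact hvp.symm
    refine ⟨(t.rmap (Subtype.val : ({v}ᶜ : Set W) → W)).addLeaf p v, ?_, ?_, ?_, ?_, ?_⟩
    · rw [RT.addLeaf_root, RT.rmap_root, hroot]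
    · apply RT.addLeaf_good
      · exact RT.rmap_good _ Subtype.val_injective _ hg
      · rw [hverts]; simp
    · rw [RT.addLeaf_verts, hverts]
      ext x
      by_cases hx : x = v <;> simp [hx]
    · intro a b
      constructor
      · intro hab
        by_cases ha : a = v
        · subst ha
          have := hup b hab
          subst this
          exact Or.inr hnew
        · by_cases hb : b = v
          · subst hb
            have := hup a hab.symm
            subst this
            exact Or.inl hnew
          · rcases (he ⟨a, ha⟩ ⟨b, hb⟩).1 hab with h | h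
            · exact Or.inl (RT.addLeaf_edge_old _ _ _ _ _ (RT.rmap_edge Subtype.val _ _ _ h))
            · exact Or.inr (RT.addLeaf_edge_old _ _ _ _ _ (RT.rmap_edge Subtype.val _ _ _ h))
      · rintro (h | h)
        · exact hback a b h
        · exact (hback b a h).symm
    · rw [RT.addLeaf_size, RT.rmap_size, hs, hcard, hc]

theorem exists_RT_root {W : Type*} [Fintype W] [DecidableEq W] (T : SimpleGraph W)
    (hT : T.IsTree) (r : W) :
    ∃ t : RT W, t.root = r ∧ t.Good ∧ t.verts = Finset.univ ∧
      (∀ a b, T.Adj a b ↔ (t.Edge a b ∨ t.Edge b a)) ∧ t.size + 1 = Fintype.card W := by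
  have := hT.connected.nonempty
  have hpos : 0 < Fintype.card W := Fintype.card_pos
  exact exists_RT_root_aux (Fintype.card W - 1) T hT (by omega) r


end

/-! ### job 26938 -/
section



/-- the conclusion of `extract'` -/
def Extr {V W : Type*} [DecidableEq V] [DecidableEq W] (G : SimpleGraph V) (L : Set V)
    (t : RT W) (u : V) (S : Finset V) : Prop :=
  ∃ (f : W → V) (P : Finset W), P ⊆ t.verts ∧ t.root ∈ P ∧ f t.root = u ∧
      (∀ w ∈ P, w ≠ t.root → f w ∈ S ∧ f w ≠ u) ∧ Set.InjOn f (P : Set W) ∧
      (∀ a b, t.Edge a b → b ∈ P → a ∈ P ∧ G.Adj (f a) (f b)) ∧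
      (∀ a b, t.Edge a b → b ∉ P → a ∈ P ∧ f a ∈ L ∧ ∀ c, ¬ t.Edge b c)

theorem Extr_leaf {V W : Type*} [DecidableEq V] [DecidableEq W] (G : SimpleGraph V) (L : Set V)
    (A B : RT W) (hA : IsNode A) (hdis : Disjoint A.verts B.verts) (u : V) (S : Finset V)
    (hu : u ∈ L) (h : Extr G L B u S) : Extr G L (RT.graft A B) u S := by
  obtain ⟨f, P, h1, h2, h3, h4, h5, h6, h7⟩ := h
  cases A with
  | graft A1 A2 => exact hA.elim
  | node w =>
    have hw : w ∉ B.verts := (Finset.disjoint_left.mp hdis) (Finset.mem_singleton_self w)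
    have hrB := extract_root_mem B
    refine ⟨f, P, h1.trans Finset.subset_union_right, h2, h3, h4, h5, ?_, ?_⟩
    · rintro a b (hab | hab | ⟨hab1, hab2⟩) hb
      · exact hab.elim
      · exact h6 a b hab hb
      · have hb' : b = w := hab2
        exact absurd (h1 (hb' ▸ hb)) hw
    · rintro a b (hab | hab | ⟨hab1, hab2⟩) hb
      · exact hab.elim
      · obtain ⟨g1, g2, g3⟩ := h7 a b hab hb
        refine ⟨g1, g2, ?_⟩
        rintro c (hc | hc | ⟨hc1, hc2⟩)
        · exact hc.elim
        · exact g3 c hc
        · exact hb (hc1 ▸ h2)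
      · have hb' : b = w := hab2
        refine ⟨hab1 ▸ h2, by rw [hab1, h3]; exact hu, ?_⟩
        rintro c (hc | hc | ⟨hc1, hc2⟩)
        · exact hc.elim
        · exact hw (hb' ▸ (extract_edge_mem B b c hc).1)
        · exact hw (hb' ▸ hc1 ▸ hrB)

theorem Extr_comb {V W : Type*} [DecidableEq V] [DecidableEq W] (G : SimpleGraph V) (L : Set V)
    (A B : RT W) (hdis : Disjoint A.verts B.verts) (u v : V) (S S1 : Finset V) (hS1 : S1 ⊆ S)
    (hv : v ∈ S1) (hadj : G.Adj u v) (hA : Extr G L A v (S1.erase u))
    (hB : Extr G L B u (S \ S1)) : Extr G L (RT.graft A B) u S := by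
  obtain ⟨fA, PA, hA1, hA2, hA3, hA4, hA5, hA6, hA7⟩ := hA
  obtain ⟨fB, PB, hB1, hB2, hB3, hB4, hB5, hB6, hB7⟩ := hB
  have hBA : ∀ w ∈ B.verts, w ∉ A.verts := fun w hw hwA =>
    (Finset.disjoint_left.mp hdis) hwA hw
  have hAB : ∀ w ∈ A.verts, w ∉ B.verts := fun w hw hwB =>
    (Finset.disjoint_left.mp hdis) hw hwB
  have hrA := extract_root_mem A
  have hrB := extract_root_mem B
  have hvu : v ≠ u := fun h => by
    rw [h] at hadj
    exact G.loopless.irrefl u hadj
  have hfA : ∀ w ∈ PA, fA w ∈ S1 ∧ fA w ≠ u := by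
    intro w hw
    by_cases hwr : w = A.root
    · rw [hwr, hA3]
      exact ⟨hv, hvu⟩
    · have := (hA4 w hw hwr).1
      exact ⟨Finset.mem_of_mem_erase this, Finset.ne_of_mem_erase this⟩
  have hfB : ∀ w ∈ PB, fB w = u ∨ fB w ∉ S1 := by
    intro w hw
    by_cases hwr : w = B.root
    · left; rw [hwr, hB3]
    · right
      exact (Finset.mem_sdiff.mp (hB4 w hw hwr).1).2
  have hcross : ∀ a ∈ PA, ∀ b ∈ PB, fA a ≠ fB b := by
    intro a ha b hb he
    rcases hfB b hb with h1 | h1
    · exact (hfA a ha).2 (he.trans h1)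
    · exact h1 (he ▸ (hfA a ha).1)
  have eA : ∀ w ∈ A.verts, (if w ∈ A.verts then fA w else fB w) = fA w := fun w hw => if_pos hw
  have eB : ∀ w ∈ B.verts, (if w ∈ A.verts then fA w else fB w) = fB w := fun w hw =>
    if_neg (hBA w hw)
  refine ⟨fun w => if w ∈ A.verts then fA w else fB w, PA ∪ PB,
    Finset.union_subset_union hA1 hB1, Finset.mem_union_right _ hB2, ?_, ?_, ?_, ?_, ?_⟩
  · show (if B.root ∈ A.verts then fA B.root else fB B.root) = u
    rw [eB _ hrB, hB3]
  · intro w hw hwr
    show (if w ∈ A.verts then fA w else fB w) ∈ S ∧ (if w ∈ A.verts then fA w else fB w) ≠ u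
    rcases Finset.mem_union.mp hw with hw1 | hw1
    · rw [eA w (hA1 hw1)]
      exact ⟨hS1 (hfA w hw1).1, (hfA w hw1).2⟩
    · rw [eB w (hB1 hw1)]
      have h1 := hB4 w hw1 hwr
      exact ⟨(Finset.mem_sdiff.mp h1.1).1, h1.2⟩
  · intro a ha b hb hab
    have ha' : a ∈ PA ∪ PB := by exact_mod_cast ha
    have hb' : b ∈ PA ∪ PB := by exact_mod_cast hb
    have hab' : (if a ∈ A.verts then fA a else fB a) = (if b ∈ A.verts then fA b else fB b) := hab
    rcases Finset.mem_union.mp ha' with ha1 | ha1
    · rcases Finset.mem_union.mp hb' with hb1 | hb1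
      · rw [eA a (hA1 ha1), eA b (hA1 hb1)] at hab'
        exact hA5 (by exact_mod_cast ha1) (by exact_mod_cast hb1) hab'
      · rw [eA a (hA1 ha1), eB b (hB1 hb1)] at hab'
        exact absurd hab' (hcross a ha1 b hb1)
    · rcases Finset.mem_union.mp hb' with hb1 | hb1
      · rw [eB a (hB1 ha1), eA b (hA1 hb1)] at hab'
        exact absurd hab'.symm (hcross b hb1 a ha1)
      · rw [eB a (hB1 ha1), eB b (hB1 hb1)] at hab'
        exact hB5 (by exact_mod_cast ha1) (by exact_mod_cast hb1) hab'
  · intro a b hab hb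
    show a ∈ PA ∪ PB ∧
      G.Adj (if a ∈ A.verts then fA a else fB a) (if b ∈ A.verts then fA b else fB b)
    rcases hab with h1 | h1 | ⟨h1, h2⟩
    · have h3 := extract_edge_mem A a b h1
      have hb1 : b ∈ PA := by
        rcases Finset.mem_union.mp hb with hb1 | hb1
        · exact hb1
        · exact absurd (hB1 hb1) (hAB b h3.2)
      obtain ⟨g1, g2⟩ := hA6 a b h1 hb1
      rw [eA a h3.1, eA b h3.2]
      exact ⟨Finset.mem_union_left _ g1, g2⟩
    · have h3 := extract_edge_mem B a b h1
      have hb1 : b ∈ PB := by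
        rcases Finset.mem_union.mp hb with hb1 | hb1
        · exact absurd (hA1 hb1) (hBA b h3.2)
        · exact hb1
      obtain ⟨g1, g2⟩ := hB6 a b h1 hb1
      rw [eB a h3.1, eB b h3.2]
      exact ⟨Finset.mem_union_right _ g1, g2⟩
    · rw [h1, h2, eB _ hrB, eA _ hrA, hA3, hB3]
      exact ⟨Finset.mem_union_right _ hB2, hadj⟩
  · intro a b hab hb
    show a ∈ PA ∪ PB ∧ (if a ∈ A.verts then fA a else fB a) ∈ L ∧ ∀ c, ¬ (RT.graft A B).Edge b c
    rcases hab with h1 | h1 | ⟨h1, h2⟩
    · have h3 := extract_edge_mem A a b h1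
      obtain ⟨g1, g2, g3⟩ := hA7 a b h1 (fun h => hb (Finset.mem_union_left _ h))
      rw [eA a h3.1]
      refine ⟨Finset.mem_union_left _ g1, g2, ?_⟩
      rintro c (hc | hc | ⟨hc1, hc2⟩)
      · exact g3 c hc
      · exact hAB b h3.2 (extract_edge_mem B b c hc).1
      · exact hAB b h3.2 (hc1 ▸ hrB)
    · have h3 := extract_edge_mem B a b h1
      obtain ⟨g1, g2, g3⟩ := hB7 a b h1 (fun h => hb (Finset.mem_union_right _ h))
      rw [eB a h3.1]
      refine ⟨Finset.mem_union_right _ g1, g2, ?_⟩
      rintro c (hc | hc | ⟨hc1, hc2⟩)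
      · exact hBA b h3.2 (extract_edge_mem A b c hc).1
      · exact g3 c hc
      · exact hb (Finset.mem_union_right _ (hc1 ▸ hB2))
    · exact absurd (Finset.mem_union_left _ (h2 ▸ hA2)) hb

theorem extract' {V W : Type*} [DecidableEq V] [DecidableEq W] (G : SimpleGraph V) (L : Set V)
    (t : RT W) (ht : t.Good) : ∀ (r : Bool) (u : V) (S : Finset V), (r = true → u ∈ L) →
    Emb' G L t r u S →
    ∃ (f : W → V) (P : Finset W), P ⊆ t.verts ∧ t.root ∈ P ∧ f t.root = u ∧
      (∀ w ∈ P, w ≠ t.root → f w ∈ S ∧ f w ≠ u) ∧ Set.InjOn f (P : Set W) ∧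
      (∀ a b, t.Edge a b → b ∈ P → a ∈ P ∧ G.Adj (f a) (f b)) ∧
      (∀ a b, t.Edge a b → b ∉ P → a ∈ P ∧ f a ∈ L ∧ ∀ c, ¬ t.Edge b c) := by
  change ∀ (r : Bool) (u : V) (S : Finset V), (r = true → u ∈ L) →
    Emb' G L t r u S → Extr G L t u S
  induction t with
  | node w =>
    intro r u S _ _
    refine ⟨fun _ => u, {w}, Finset.Subset.refl _, Finset.mem_singleton_self w, rfl, ?_, ?_, ?_, ?_⟩
    · intro x hx hne
      exact absurd (Finset.mem_singleton.mp hx) hne
    · intro x hx y hy _
      have hx' : x = w := Finset.mem_singleton.mp (by exact_mod_cast hx)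
      have hy' : y = w := Finset.mem_singleton.mp (by exact_mod_cast hy)
      rw [hx', hy']
    · intro a b hab
      exact hab.elim
    · intro a b hab
      exact hab.elim
  | graft A B ihA ihB =>
    obtain ⟨hgA, hgB, hdis⟩ := ht
    intro r u S hr hS
    cases r with
    | true =>
      rcases hS with ⟨h1, h2⟩ | ⟨-, S1, hS1, ⟨v, hv, -, hadj, hA⟩, hB⟩
      · exact Extr_leaf G L A B h1 hdis u S (hr rfl) (ihB hgB true u S hr h2)
      · exact Extr_comb G L A B hdis u v S S1 hS1 hv hadj
          (ihA hgA false v (S1.erase u) (fun h => by cases h) hA) (ihB hgB true u (S \ S1) hr hB)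
    | false =>
      rcases hS with ⟨h1, hu, h2⟩ | ⟨-, S1, hS1, ⟨v, hv, hvL, hadj, hA⟩, hB⟩
      · exact Extr_leaf G L A B h1 hdis u S hu (ihB hgB false u S hr h2)
      · exact Extr_comb G L A B hdis u v S S1 hS1 hv hadj
          (ihA hgA true v (S1.erase u) (fun _ => hvL) hA) (ihB hgB false u (S \ S1) hr hB)


end

/-! ### job 26939 -/
section


theorem extend_aux {V W : Type*} [Fintype V] [DecidableEq V] [Fintype W] [DecidableEq W]
    (G : SimpleGraph V) [DecidableRel G.Adj] (T : SimpleGraph W) (k : ℕ)
    (hW : Fintype.card W ≤ k + 1) (n : ℕ) : ∀ (P : Finset W) (f : W → V), Pᶜ.card = n →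
    Set.InjOn f (P : Set W) →
    (∀ a ∈ P, ∀ b ∈ P, T.Adj a b → G.Adj (f a) (f b)) →
    (∀ b, b ∉ P → ∃ a ∈ P, (∀ c, T.Adj c b → c = a) ∧ k ≤ G.degree (f a)) →
    ∃ g : W → V, Function.Injective g ∧ ∀ a b, T.Adj a b → G.Adj (g a) (g b) := by
  induction n with
  | zero =>
    intro P f hn hinj hedge hfree
    have hP : P = univ := by
      rw [Finset.card_eq_zero, Finset.compl_eq_empty_iff] at hn
      exact hn
    subst hP
    refine ⟨f, ?_, fun a b hab => hedge a (mem_univ _) b (mem_univ _) hab⟩
    intro x y hxy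
    exact hinj (by simp) (by simp) hxy
  | succ n ih =>
    intro P f hn hinj hedge hfree
    have hne : Pᶜ.Nonempty := by
      rw [← Finset.card_pos]; omega
    obtain ⟨b, hb⟩ := hne
    rw [Finset.mem_compl] at hb
    obtain ⟨a, haP, ha1, ha2⟩ := hfree b hb
    have hab : a ≠ b := fun h => hb (h ▸ haP)
    have hPk : P.card ≤ k := by
      have h1 : P.card + Pᶜ.card = Fintype.card W := Finset.card_add_card_compl P
      omega
    have hP0 : 1 ≤ P.card := Finset.card_pos.2 ⟨a, haP⟩
    obtain ⟨z, hz, hzP⟩ : ∃ z, G.Adj (f a) z ∧ z ∉ P.image f := by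
      by_contra hcon
      push Not at hcon
      have hsub : G.neighborFinset (f a) ⊆ (P.image f).erase (f a) := by
        intro z hz
        rw [SimpleGraph.mem_neighborFinset] at hz
        rw [Finset.mem_erase]
        exact ⟨hz.ne', hcon z hz⟩
      have h1 := Finset.card_le_card hsub
      rw [SimpleGraph.card_neighborFinset_eq_degree,
        Finset.card_erase_of_mem (Finset.mem_image_of_mem f haP)] at h1
      have h2 : (P.image f).card ≤ P.card := Finset.card_image_le
      omega
    have hup : ∀ x ∈ P, Function.update f b z x = f x := by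
      intro x hx
      have hxb : x ≠ b := by
        rintro rfl
        exact hb hx
      exact Function.update_of_ne hxb _ _
    have hupb : Function.update f b z b = z := Function.update_self _ _ _
    apply ih (insert b P) (Function.update f b z)
    · have h1 : P.card + Pᶜ.card = Fintype.card W := Finset.card_add_card_compl P
      have h2 : (insert b P).card + (insert b P)ᶜ.card = Fintype.card W :=
        Finset.card_add_card_compl _
      rw [Finset.card_insert_of_notMem hb] at h2
      omega
    · intro x hx y hy hxy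
      rw [Finset.coe_insert, Set.mem_insert_iff] at hx hy
      rcases hx with rfl | hx <;> rcases hy with rfl | hy
      · rfl
      · exfalso
        rw [hupb, hup y hy] at hxy
        exact hzP (Finset.mem_image.2 ⟨y, hy, hxy.symm⟩)
      · exfalso
        rw [hupb, hup x hx] at hxy
        exact hzP (Finset.mem_image.2 ⟨x, hx, hxy⟩)
      · rw [hup x hx, hup y hy] at hxy
        exact hinj hx hy hxy
    · intro x hx y hy hxy
      rw [Finset.mem_insert] at hx hy
      rcases hx with rfl | hx <;> rcases hy with rfl | hy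
      · exact absurd hxy (T.irrefl)
      · have := ha1 y hxy.symm
        subst this
        rw [hupb, hup _ hy]
        exact hz.symm
      · have := ha1 x hxy
        subst this
        rw [hupb, hup _ hx]
        exact hz
      · rw [hup x hx, hup y hy]
        exact hedge x hx y hy hxy
    · intro b' hb'
      rw [Finset.mem_insert, not_or] at hb'
      obtain ⟨a', ha', h1, h2⟩ := hfree b' hb'.2
      refine ⟨a', Finset.mem_insert_of_mem ha', h1, ?_⟩
      rw [hup a' ha']
      exact h2

theorem extend {V W : Type*} [Fintype V] [DecidableEq V] [Fintype W] [DecidableEq W]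
    (G : SimpleGraph V) [DecidableRel G.Adj] (T : SimpleGraph W) (k : ℕ)
    (hW : Fintype.card W ≤ k + 1) (P : Finset W) (f : W → V) (hinj : Set.InjOn f (P : Set W))
    (hedge : ∀ a ∈ P, ∀ b ∈ P, T.Adj a b → G.Adj (f a) (f b))
    (hfree : ∀ b, b ∉ P → ∃ a ∈ P, (∀ c, T.Adj c b → c = a) ∧ k ≤ G.degree (f a)) :
    ∃ g : W → V, Function.Injective g ∧ ∀ a b, T.Adj a b → G.Adj (g a) (g b) := by
  exact extend_aux G T k hW _ P f rfl hinj hedge hfree


end

/-! ### job 26940 -/
section



/-- childless nonroot vertices -/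
def CL396 {W : Type*} [DecidableEq W] : RT W → Finset W
  | .node _ => ∅
  | .graft A B => CL396 B ∪ (if IsNode A then {A.root} else CL396 A)

theorem CL396_card {W : Type*} [DecidableEq W] (t : RT W) : (CL396 t).card ≤ nl t := by
  induction t with
  | node w => simp [CL396, nl]
  | graft A B ihA ihB =>
    simp only [CL396, nl]
    refine (Finset.card_union_le _ _).trans ?_
    by_cases h : IsNode A
    · simp only [h, if_true, Finset.card_singleton]
      omega
    · simp only [h, if_false]
      omega

theorem CL396_edges {W : Type*} [DecidableEq W] (t : RT W) : ∀ w ∈ t.verts, w ≠ t.root →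
    w ∉ CL396 t → (∃ a, t.Edge a w) ∧ (∃ b, t.Edge w b) := by
  induction t with
  | node w =>
    intro x hx hne _
    exact absurd (Finset.mem_singleton.mp hx) hne
  | graft A B ihA ihB =>
    intro w hw hne hcl
    simp only [CL396, Finset.mem_union, not_or] at hcl
    obtain ⟨hclB, hclA⟩ := hcl
    rcases Finset.mem_union.mp hw with hwA | hwB
    · by_cases hnode : IsNode A
      · simp only [hnode, if_true, Finset.mem_singleton] at hclA
        cases A with
        | node w0 => exact absurd (Finset.mem_singleton.mp hwA) hclA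
        | graft A1 A2 => exact hnode.elim
      · simp only [hnode, if_false] at hclA
        by_cases hr : w = A.root
        · refine ⟨⟨B.root, Or.inr (Or.inr ⟨rfl, hr⟩)⟩, ?_⟩
          cases A with
          | node w0 => exact absurd trivial hnode
          | graft A1 A2 =>
            exact ⟨A1.root, Or.inl (Or.inr (Or.inr ⟨hr, rfl⟩))⟩
        · obtain ⟨⟨a, ha⟩, ⟨b, hb⟩⟩ := ihA w hwA hr hclA
          exact ⟨⟨a, Or.inl ha⟩, ⟨b, Or.inl hb⟩⟩
    · obtain ⟨⟨a, ha⟩, ⟨b, hb⟩⟩ := ihB w hwB hne hclB
      exact ⟨⟨a, Or.inr (Or.inl ha)⟩, ⟨b, Or.inr (Or.inl hb)⟩⟩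

theorem edge_asymm396 {W : Type*} [DecidableEq W] (t : RT W) (ht : t.Good) :
    ∀ a b, t.Edge a b → ¬ t.Edge b a := by
  induction t with
  | node w => intro a b h; exact h.elim
  | graft A B ihA ihB =>
    intro a b h h'
    obtain ⟨hgA, hgB, hdis⟩ := ht
    have hD : ∀ x, x ∈ A.verts → x ∈ B.verts → False := fun x h1 h2 =>
      (Finset.disjoint_left.mp hdis) h1 h2
    have hrA := extract_root_mem A
    have hrB := extract_root_mem B
    rcases h with h | h | ⟨h1, h2⟩
    · rcases h' with h' | h' | ⟨h3, h4⟩
      · exact ihA hgA a b h h'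
      · exact hD a (extract_edge_mem A a b h).1 (extract_edge_mem B b a h').2
      · exact hD b (extract_edge_mem A a b h).2 (h3 ▸ hrB)
    · rcases h' with h' | h' | ⟨h3, h4⟩
      · exact hD a (extract_edge_mem A b a h').2 (extract_edge_mem B a b h).1
      · exact ihB hgB a b h h'
      · exact hD a (h4 ▸ hrA) (extract_edge_mem B a b h).1
    · rcases h' with h' | h' | ⟨h3, h4⟩
      · exact hD a (extract_edge_mem A b a h').2 (h1 ▸ hrB)
      · exact hD b (h2 ▸ hrA) (extract_edge_mem B b a h').1
      · exact hD a (h4 ▸ hrA) (h1 ▸ hrB)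

theorem leaves_le {W : Type*} [Fintype W] [DecidableEq W] (T : SimpleGraph W) [DecidableRel T.Adj]
    (t : RT W) (ht : t.Good) (hv : t.verts = Finset.univ)
    (he : ∀ a b, T.Adj a b ↔ (t.Edge a b ∨ t.Edge b a)) (hr : T.degree t.root ≠ 1) :
    ((univ : Finset W).filter (fun w => T.degree w = 1)).card ≤ nl t := by
  refine le_trans (Finset.card_le_card ?_) (CL396_card t)
  intro w hw
  rw [Finset.mem_filter] at hw
  by_contra hcl
  have hwr : w ≠ t.root := by
    intro h
    rw [h] at hw
    exact hr hw.2
  have hwv : w ∈ t.verts := by rw [hv]; exact Finset.mem_univ w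
  obtain ⟨⟨a, ha⟩, ⟨b, hb⟩⟩ := CL396_edges t w hwv hwr hcl
  have hab : a ≠ b := by
    intro h
    rw [← h] at hb
    exact edge_asymm396 t ht a w ha hb
  have hsub : ({a, b} : Finset W) ⊆ T.neighborFinset w := by
    intro x hx
    rw [SimpleGraph.mem_neighborFinset]
    rcases Finset.mem_insert.mp hx with h | h
    · rw [h]
      exact (he w a).mpr (Or.inr ha)
    · rw [Finset.mem_singleton.mp h]
      exact (he w b).mpr (Or.inl hb)
  have h2 := Finset.card_le_card hsub
  rw [Finset.card_pair hab, SimpleGraph.card_neighborFinset_eq_degree] at h2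
  omega


end

/-! ### job 26941 -/
section



theorem no_edge_root_aux {W : Type*} [DecidableEq W] (t : RT W) (ht : t.Good) (a : W) :
    ¬ t.Edge a t.root := by
  induction t with
  | node w => exact fun h => h
  | graft A B ihA ihB =>
    obtain ⟨hA, hB, hd⟩ := ht
    have hrB := extract_root_mem B
    have hrA := extract_root_mem A
    rintro (h | h | ⟨_, h⟩)
    · exact Finset.disjoint_left.1 hd (extract_edge_mem A a _ h).2 hrB
    · exact ihB hB h
    · have h1 : B.root = A.root := h
      rw [← h1] at hrA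
      exact Finset.disjoint_left.1 hd hrA hrB

theorem nX_eq {W : Type*} [DecidableEq W] (t : RT W) (ht : t.Good) (c : W → Bool)
    (hc : ∀ a b, t.Edge a b → c a ≠ c b) :
    (t.verts.filter (fun w => c w = true)).card = nX t (c t.root) := by
  induction t with
  | node w =>
    show (Finset.filter (fun w => c w = true) {w}).card = if c w then 1 else 0
    rw [Finset.filter_singleton]
    cases h : c w <;> simp
  | graft A B ihA ihB =>
    obtain ⟨hA, hB, hd⟩ := ht
    have h1 := ihA hA (fun a b h => hc a b (Or.inl h))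
    have h2 := ihB hB (fun a b h => hc a b (Or.inr (Or.inl h)))
    have h3 : c B.root ≠ c A.root := hc _ _ (Or.inr (Or.inr ⟨rfl, rfl⟩))
    have h4 : c A.root = !(c B.root) := by
      cases hA' : c A.root <;> cases hB' : c B.root <;> simp_all
    show (Finset.filter (fun w => c w = true) (A.verts ∪ B.verts)).card =
      nX A (!(c B.root)) + nX B (c B.root)
    rw [Finset.filter_union, Finset.card_union_of_disjoint (Finset.disjoint_filter_filter hd), h1, h2,
      h4]

/-- unique parent -/
theorem parent_unique {W : Type*} [DecidableEq W] (t : RT W) (ht : t.Good) (a a' b : W)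
    (h : t.Edge a b) (h' : t.Edge a' b) : a = a' := by
  induction t with
  | node w => exact h.elim
  | graft A B ihA ihB =>
    obtain ⟨hA, hB, hd⟩ := ht
    have hrA := extract_root_mem A
    rcases h with h | h | ⟨h1, h2⟩
    · rcases h' with h' | h' | ⟨h1', h2'⟩
      · exact ihA hA h h'
      · exact absurd (extract_edge_mem B a' b h').2
          (Finset.disjoint_left.1 hd (extract_edge_mem A a b h).2)
      · rw [h2'] at h
        exact absurd h (no_edge_root_aux A hA a)
    · rcases h' with h' | h' | ⟨h1', h2'⟩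
      · exact absurd (extract_edge_mem B a b h).2
          (Finset.disjoint_left.1 hd (extract_edge_mem A a' b h').2)
      · exact ihB hB h h'
      · rw [h2'] at h
        exact absurd (extract_edge_mem B a _ h).2 (Finset.disjoint_left.1 hd hrA)
    · rcases h' with h' | h' | ⟨h1', h2'⟩
      · rw [h2] at h'
        exact absurd h' (no_edge_root_aux A hA a')
      · rw [h2] at h'
        exact absurd (extract_edge_mem B a' _ h').2 (Finset.disjoint_left.1 hd hrA)
      · rw [h1, h1']


end

theorem exists_parent {W : Type*} [DecidableEq W] (t : RT W) (w : W) (hw : w ∈ t.verts)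
    (hr : w ≠ t.root) : ∃ a, t.Edge a w := by
  induction t with
  | node r => exact absurd (Finset.mem_singleton.1 hw) hr
  | graft A B ihA ihB =>
    rcases Finset.mem_union.1 hw with h | h
    · by_cases hA : w = A.root
      · exact ⟨B.root, Or.inr (Or.inr ⟨rfl, hA⟩)⟩
      · obtain ⟨a, ha⟩ := ihA h hA
        exact ⟨a, Or.inl ha⟩
    · obtain ⟨a, ha⟩ := ihB h hr
      exact ⟨a, Or.inr (Or.inl ha)⟩

theorem lks_core {V W : Type*} [Fintype V] [DecidableEq V] [Nonempty V] [Fintype W]
    [DecidableEq W] (G : SimpleGraph V) [DecidableRel G.Adj] (T : SimpleGraph W)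
    [DecidableRel T.Adj] (hT : T.IsTree) (m D : ℕ) (hW : Fintype.card W = m + 1) (hmD : m ≤ D)
    (c : W → Bool) (hc : ∀ a b, T.Adj a b → c a ≠ c b) (r : W) (hr : c r = true)
    (hrd : T.degree r ≠ 1)
    (hX : ((univ : Finset W).filter (fun w => c w = true)).card + m ≤
      ((univ : Finset W).filter (fun w => T.degree w = 1)).card + 1 + D)
    (hV : Fintype.card V ≤ 2 * ((univ : Finset V).filter (fun v => D ≤ G.degree v)).card) :
    ∃ g : W → V, Function.Injective g ∧ ∀ a b, T.Adj a b → G.Adj (g a) (g b) := by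
  obtain ⟨t, htr, htg, htv, hte, hts⟩ := exists_RT_root T hT r
  set L := (univ : Finset V).filter (fun v => D ≤ G.degree v) with hL
  have hVpos : 0 < Fintype.card V := Fintype.card_pos
  have hLpos : 0 < L.card := by omega
  have hcst := cst_formula t true
  have hnX := nX_eq t htg c (fun a b hab => hc a b ((hte a b).2 (Or.inl hab)))
  rw [htr, hr, htv] at hnX
  have hlv := leaves_le T t htg htv hte (by rw [htr]; exact hrd)
  have hsize : t.size = m := by omega
  simp only [if_true] at hcst
  have hle : cst t true ≤ D := by omega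
  obtain ⟨u, huL, hu⟩ : ∃ u ∈ L, Emb' G (L : Set V) t true u univ := by
    by_contra hcon
    push Not at hcon
    have hall : ∀ u ∈ L, E univ (Fail (Emb' G (L : Set V) t true u)) = (Fintype.card V : ℚ) + 1 := by
      intro u hu
      have : Fail (Emb' G (L : Set V) t true u) = fun _ => 1 := by
        funext S
        have : ¬ Emb' G (L : Set V) t true u S := fun hh =>
          hcon u hu (Emb'_mono G _ t true u S univ (Finset.subset_univ _) hh)
        simp [Fail, this]
      rw [this, E_one, Finset.card_univ]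
    have hcost := (cost' G L hV t).1
    have h1 : ∑ u ∈ L, ((D : ℚ) + 1) * ((Fintype.card V : ℚ) + 1) ≤
        ∑ u ∈ L, (((G.neighborFinset u).card : ℚ) + 1) * E univ (Fail (Emb' G (L : Set V) t true u)) := by
      apply Finset.sum_le_sum
      intro u hu
      rw [hall u hu]
      apply mul_le_mul_of_nonneg_right _ (by positivity)
      have : D ≤ G.degree u := (Finset.mem_filter.1 hu).2
      rw [SimpleGraph.card_neighborFinset_eq_degree]
      have : (D : ℚ) ≤ (G.degree u : ℚ) := by exact_mod_cast this
      linarith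
    rw [Finset.sum_const, nsmul_eq_mul] at h1
    have h2 := h1.trans hcost
    have h3 : (cst t true : ℚ) ≤ D := by exact_mod_cast hle
    have h4 : (0:ℚ) < (L.card : ℚ) * ((Fintype.card V : ℚ) + 1) := by
      have : (0:ℚ) < L.card := by exact_mod_cast hLpos
      positivity
    nlinarith
  obtain ⟨f, P, hP1, hP2, hP3, hP4, hP5, hP6, hP7⟩ := extract' G (L : Set V) t htg true u univ
    (fun _ => huL) hu
  refine extend G T m (by omega) P f hP5 ?_ ?_
  · intro a ha b hb hab
    rcases (hte a b).1 hab with h | h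
    · exact (hP6 a b h hb).2
    · exact (hP6 b a h ha).2.symm
  · intro b hb
    have hbr : b ≠ t.root := fun h => hb (h ▸ hP2)
    obtain ⟨a, ha⟩ := exists_parent t b (by rw [htv]; exact Finset.mem_univ _) hbr
    obtain ⟨h1, h2, h3⟩ := hP7 a b ha hb
    refine ⟨a, h1, ?_, ?_⟩
    · intro x hx
      rcases (hte x b).1 hx with h | h
      · exact parent_unique t htg x a b h ha
      · exact absurd h (h3 x)
    · have : D ≤ G.degree (f a) := (Finset.mem_filter.1 (Finset.mem_coe.1 h2)).2
      omega

theorem lks_main {V W : Type*} [Fintype V] [DecidableEq V] [Nonempty V] [Fintype W]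
    [DecidableEq W] (G : SimpleGraph V) [DecidableRel G.Adj] (T : SimpleGraph W)
    [DecidableRel T.Adj] (hT : T.IsTree) (m D : ℕ) (hW : Fintype.card W = m + 1) (hmD : m ≤ D)
    (c : W → Bool) (hc : ∀ a b, T.Adj a b → c a ≠ c b)
    (hX : ((univ : Finset W).filter (fun w => c w = true)).card + m ≤
      ((univ : Finset W).filter (fun w => T.degree w = 1)).card + 1 + D)
    (hV : Fintype.card V ≤ 2 * ((univ : Finset V).filter (fun v => D ≤ G.degree v)).card) :
    ∃ g : W → V, Function.Injective g ∧ ∀ a b, T.Adj a b → G.Adj (g a) (g b) := by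
  by_cases hex : ∃ r, c r = true ∧ T.degree r ≠ 1
  · obtain ⟨r, hr, hrd⟩ := hex
    exact lks_core G T hT m D hW hmD c hc r hr hrd hX hV
  · push Not at hex
    -- all vertices of the class `true` are leaves
    have hVpos : 0 < Fintype.card V := Fintype.card_pos
    have hLne : ((univ : Finset V).filter (fun v => D ≤ G.degree v)).Nonempty := by
      rw [← Finset.card_pos]; omega
    obtain ⟨u, hu⟩ := hLne
    have huD : D ≤ G.degree u := (Finset.mem_filter.1 hu).2
    set X := (univ : Finset W).filter (fun w => c w = true) with hXdef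
    set Y := (univ : Finset W).filter (fun w => c w = false) with hYdef
    have hXY : X.card + Y.card = m + 1 := by
      have := Finset.card_filter_add_card_filter_not (s := (univ : Finset W)) (fun w => c w = true)
      rw [Finset.card_univ, hW] at this
      rw [← this]
      congr 2
      apply Finset.filter_congr
      intro w _
      simp
    have hbip : T.IsBipartiteWith (X : Set W) (Y : Set W) := by
      refine ⟨?_, ?_⟩
      · rw [Set.disjoint_left]
        intro w h1 h2
        simp [hXdef, hYdef] at h1 h2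
        rw [h1] at h2
        exact absurd h2 (by decide)
      · intro a b hab
        have := hc a b hab
        simp only [hXdef, hYdef, Finset.coe_filter, Finset.mem_univ, true_and, Set.mem_ofPred_eq]
        cases ha : c a <;> cases hb : c b <;> simp_all
    have hsum := SimpleGraph.isBipartiteWith_sum_degrees_eq_card_edges hbip
    have hed := hT.card_edgeFinset
    have h1 : ∑ v ∈ X, T.degree v = X.card := by
      rw [Finset.sum_congr rfl (fun v hv => hex v (Finset.mem_filter.1 hv).2), Finset.sum_const,
        smul_eq_mul, mul_one]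
    have hY1 : Y.card = 1 := by omega
    obtain ⟨y, hy⟩ := Finset.card_eq_one.1 hY1
    refine extend G T m (by omega) {y} (fun _ => u) (by simp) ?_ ?_
    · intro a ha b hb hab
      rw [Finset.mem_singleton] at ha hb
      rw [ha, hb] at hab
      exact absurd hab (T.loopless.irrefl y)
    · intro b hb
      refine ⟨y, Finset.mem_singleton_self y, ?_, by omega⟩
      intro x hx
      have hb' : b ∉ Y := by rw [hy]; exact hb
      have hbX : c b = true := by
        by_contra h
        exact hb' (by simp [hYdef, h])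
      have hxY : x ∈ Y := by
        have := hc x b hx
        rw [hbX] at this
        simp only [hYdef, Finset.mem_filter, Finset.mem_univ, true_and]
        cases hcx : c x
        · rfl
        · exact absurd hcx this
      rw [hy] at hxY
      exact Finset.mem_singleton.1 hxY

end Helper531.LKS
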