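import Mathlib

set_option autoImplicit false

namespace Helper531.ES

/-- `K_N → (T)_k`: for every colouring `c` of the edges of the complete graph on `Fin N` with `k`
colours (a symmetric function of two vertices; its values on the diagonal play no role) there is a
copy of the graph `T` in the complete graph all of whose edges have the same colour `i`. -/
def Arrows {V : Type} (T : SimpleGraph V) (k N : ℕ) : Prop :=
  ∀ c : Fin N → Fin N → Fin k, (∀ x y, c x y = c y x) →
    ∃ i : Fin k, ∃ f : V ↪ Fin N, ∀ a b, T.Adj a b → c (f a) (f b) = i

/-- `r` is the `k`-colour Ramsey number of `T`: the least `N` with `K_N → (T)_k`. -/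
def IsRamseyNumber {V : Type} (T : SimpleGraph V) (k r : ℕ) : Prop :=
  IsLeast {N : ℕ | Arrows T k N} r

end Helper531.ES
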